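import Pool.Agent.K1H72.PCG.Red

/-!
# Generalized recognition of pairwise compatibility graphs is NP-hard

The reduction is from (monotone) not-all-equal satisfiability.  For a pair of vertices write `M` for
`dmin ≤ d ≤ dmax`, `N` for `d < dmin` and `F` for `d > dmax`; pairs of `S` are `N` or `F`.  By the
four-point condition:

* if `u x`, `v y` are edges and the four other pairs of `u, x, v, y` are in `S` then one of these
  four is `F`; if moreover `u, x, v, y` are joined to `a` and `a'` and `a a'` is in `S` then `a a'` is
  `N` (since `u v`, `a a'` cannot both be `F` in a 4-cycle of edges);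
* if `a a'`, `c c'` are `N`, `a c'`, `a' c` are edges, and `a c`, `a' c'` are in `S` then exactly one
  of `a c`, `a' c'` is `F`;
* if all pairs of `a₁, a₂, a₃` and all pairs of `c₁, c₂, c₃` are `N`, `a₁ c₂`, `a₂ c₃`, `a₃ c₁` are
  edges and `aᵢ cᵢ` are in `S` then the three pairs `aᵢ cᵢ` are not all `N` and not all `F`.

Each satisfiable formula gives a caterpillar with five spine vertices.
-/

set_option autoImplicit false

namespace Pool.Agent.Results.MP_9390ab_lc.GeneralizedNPHard

open Pool.Agent.NPC Pool.Agent.NPC.K1H72PCG

/-- **Generalized recognition of pairwise compatibility graphs is NP-hard.** -/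
theorem result : NPHardP GenPCGProblem := hard_genPCG

end Pool.Agent.Results.MP_9390ab_lc.GeneralizedNPHard
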